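import Mathlib
import Pool.Agent.R56.Cost

set_option autoImplicit false

/-!
# The cost number of a 2-distinguishable graph is bounded in terms of its determining number
-/

namespace Pool.Agent.Results.MP_ff3c98_co.CostBounded

/-- The 2-colouring `c` of the vertices of `G` is distinguishing: the identity is the only
automorphism of `G` that maps every vertex to a vertex of the same colour. -/
def IsDistinguishing {V : Type} (G : SimpleGraph V) (c : V → Bool) : Prop :=
  ∀ σ : G ≃g G, (∀ v, c (σ v) = c v) → ∀ v, σ v = v

/-- `G` has a distinguishing colouring with at most two colours. -/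
def TwoDistinguishable {V : Type} (G : SimpleGraph V) : Prop :=
  ∃ c : V → Bool, IsDistinguishing G c

/-- `S` is a determining set: the only automorphism fixing every vertex of `S` is the identity. -/
def IsDetermining {V : Type} (G : SimpleGraph V) (S : Set V) : Prop :=
  ∀ σ : G ≃g G, (∀ v ∈ S, σ v = v) → ∀ v, σ v = v

/-- The determining number: the least size of a determining set. -/
noncomputable def Det {V : Type} (G : SimpleGraph V) : ℕ :=
  sInf {k : ℕ | ∃ S : Set V, IsDetermining G S ∧ S.ncard = k}

/-- `S` is a distinguishing class: a colour class of some distinguishing 2-colouring. -/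
def IsDistinguishingClass {V : Type} (G : SimpleGraph V) (S : Set V) : Prop :=
  ∃ c : V → Bool, IsDistinguishing G c ∧ ∃ i : Bool, S = {v | c v = i}

/-- The cost number: the least size of a distinguishing class. -/
noncomputable def cost {V : Type} (G : SimpleGraph V) : ℕ :=
  sInf {k : ℕ | ∃ S : Set V, IsDistinguishingClass G S ∧ S.ncard = k}

/-- **The cost number is bounded in terms of the determining number.** For every `d` there is a
constant `C` such that every finite 2-distinguishable graph `G` with determining number `d` has
cost number at most `C`. So for no `d` can the cost number be arbitrarily far from `d`. -/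
theorem result (d : ℕ) : ∃ C : ℕ, ∀ (V : Type) [Finite V] (G : SimpleGraph V),
    TwoDistinguishable G → Det G = d → cost G ≤ C := by
  classical
  obtain ⟨C, hC⟩ := Pool.Agent.R56.Cost.main d
  refine ⟨C, ?_⟩
  intro V _ G h2 hd
  have hfin : Fintype V := Fintype.ofFinite V
  have hfinA : Finite (G ≃g G) := by
    apply Finite.of_injective (fun σ : G ≃g G => (fun v => σ v))
    intro σ τ h
    ext v
    exact congrFun h v
  have hfinA' : Fintype (G ≃g G) := Fintype.ofFinite _
  let _ : MulAction (G ≃g G) V :=
    { smul := fun σ v => σ v
      one_smul := fun _ => rfl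
      mul_smul := fun _ _ _ => rfl }
  have hsmul : ∀ (σ : G ≃g G) (v : V), σ • v = σ v := fun _ _ => rfl
  -- a base of size `d`
  obtain ⟨B, hB, hBc⟩ : ∃ S : Set V, IsDetermining G S ∧ S.ncard = d := by
    have hne : {k : ℕ | ∃ S : Set V, IsDetermining G S ∧ S.ncard = k}.Nonempty :=
      ⟨_, Set.univ, fun σ h v => h v (Set.mem_univ v), rfl⟩
    have := Nat.sInf_mem hne
    rw [← hd]
    exact this
  have hBf : B.Finite := Set.toFinite B
  obtain ⟨e⟩ : Nonempty (Fin d ≃ B) := by
    rw [← Nat.card_coe_set_eq] at hBc
    exact ⟨(Finite.equivFinOfCardEq hBc).symm⟩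
  have hb : Pool.Agent.R56.Cost.IsBase (G ≃g G) (fun i : Fin d => (e i : V)) := by
    intro g hg
    ext v
    refine hB g ?_ v
    intro x hx
    have := hg (e.symm ⟨x, hx⟩)
    simp only [Equiv.apply_symm_apply] at this
    exact this
  obtain ⟨c, hc⟩ := h2
  have himg : ∀ (g : G ≃g G) (S : Finset V), S.image (fun x => g • x) = S →
      ∀ v, (g v ∈ S ↔ v ∈ S) := by
    intro g S h v
    constructor
    · intro hv
      rw [← h, Finset.mem_image] at hv
      obtain ⟨y, hy, hyv⟩ := hv
      have : y = v := g.injective hyv
      rwa [← this]
    · intro hv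
      rw [← h, Finset.mem_image]
      exact ⟨v, hv, rfl⟩
  obtain ⟨S, hSc, hS⟩ := hC (G ≃g G) V (fun i : Fin d => (e i : V)) hb
    (Finset.univ.filter fun v => c v = true) (by
      intro g hg
      ext v
      refine hc g ?_ v
      intro x
      have := himg g _ hg x
      simp only [Finset.mem_filter, Finset.mem_univ, true_and] at this
      exact Bool.eq_iff_iff.2 this)
  refine le_trans (Nat.sInf_le ⟨(S : Set V), ⟨fun v => decide (v ∈ S), ?_, true, ?_⟩, rfl⟩) ?_
  · intro σ hσ v
    have h1 : S.image (fun x => σ • x) = S := by
      have hsub : S.image (fun x => σ • x) ⊆ S := by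
        intro y hy
        rw [Finset.mem_image] at hy
        obtain ⟨x, hx, rfl⟩ := hy
        have := hσ x
        simp only [decide_eq_decide] at this
        exact this.2 hx
      exact Finset.eq_of_subset_of_card_le hsub
        (by rw [Finset.card_image_of_injective _ (MulAction.injective σ)])
    have := hS σ h1
    rw [this]
    rfl
  · ext v
    simp
  · rw [Set.ncard_coe_finset]
    exact hSc

end Pool.Agent.Results.MP_ff3c98_co.CostBounded
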